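import Pool.Agent.helper24.ISL.Spec

/-!
# MP_512a69, row KEY: closed subgroups normalised by `H`
-/

set_option autoImplicit false

namespace Pool.Agent.ISL

open Matrix Filter Topology

section

variable {n : ℕ} {F : Type}

theorem KEY_cv_mulVec [Field F] [CharZero F] (M : Mat n ℚ) (v : Fin n → ℚ) :
    cm F M *ᵥ cv F v = cv F (M *ᵥ v) := by
  ext i
  simp only [mulVec, dotProduct, cv, cm_apply]
  push_cast
  rfl

theorem KEY_cv_vecMul [Field F] [CharZero F] (M : Mat n ℚ) (v : Fin n → ℚ) :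
    cv F v ᵥ* cm F M = cv F (v ᵥ* M) := by
  ext i
  simp only [vecMul, dotProduct, cv, cm_apply]
  push_cast
  rfl

theorem KEY_cv_dot [Field F] [CharZero F] (θ v : Fin n → ℚ) :
    cv F θ ⬝ᵥ cv F v = ((θ ⬝ᵥ v : ℚ) : F) := by
  simp only [dotProduct, cv]
  push_cast
  rfl

theorem KEY_rk_mulVec [Field F] (v φ c : Fin n → F) : rk v φ *ᵥ c = (φ ⬝ᵥ c) • v := by
  ext i
  simp only [rk, mulVec, dotProduct, vecMulVec_apply, Pi.smul_apply, smul_eq_mul, Finset.sum_mul]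
  refine Finset.sum_congr rfl fun j _ => ?_
  ring

theorem KEY_vecMul_rk [Field F] (v φ θ : Fin n → F) : θ ᵥ* rk v φ = (θ ⬝ᵥ v) • φ := by
  ext i
  simp only [rk, vecMul, dotProduct, vecMulVec_apply, Pi.smul_apply, smul_eq_mul, Finset.sum_mul]
  refine Finset.sum_congr rfl fun j _ => ?_
  ring

theorem KEY_rk_smul_left [Field F] (z : F) (v φ : Fin n → F) : rk (z • v) φ = z • rk v φ := by
  ext i j
  simp only [rk, vecMulVec_apply, Pi.smul_apply, Matrix.smul_apply, smul_eq_mul]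
  ring

theorem KEY_rk_smul_right [Field F] (z : F) (v φ : Fin n → F) : rk v (z • φ) = z • rk v φ := by
  ext i j
  simp only [rk, vecMulVec_apply, Pi.smul_apply, Matrix.smul_apply, smul_eq_mul]
  ring

theorem KEY_rk_add_left [Field F] (v w φ : Fin n → F) : rk (v + w) φ = rk v φ + rk w φ := by
  ext i j
  simp only [rk, vecMulVec_apply, Pi.add_apply, Matrix.add_apply]
  ring

theorem KEY_rk_add_right [Field F] (v φ ψ : Fin n → F) : rk v (φ + ψ) = rk v φ + rk v ψ := by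
  ext i j
  simp only [rk, vecMulVec_apply, Pi.add_apply, Matrix.add_apply]
  ring

theorem KEY_rk_mul_rk [Field F] (v φ w ψ : Fin n → F) : rk v φ * rk w ψ = (φ ⬝ᵥ w) • rk v ψ := by
  rw [← KEY_rk_smul_right]
  unfold rk
  rw [vecMulVec_mul_vecMulVec]

theorem KEY_mul [Field F] {K : Subgroup (SL n F)} {M N : Mat n F} (hM : InK K M) (hN : InK K N) :
    InK K (M * N) := by
  obtain ⟨k, hk, rfl⟩ := hM
  obtain ⟨l, hl, rfl⟩ := hN
  exact ⟨k * l, K.mul_mem hk hl, by rw [Matrix.SpecialLinearGroup.coe_mul]⟩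

theorem KEY_one [Field F] {K : Subgroup (SL n F)} : InK K (1 : Mat n F) :=
  ⟨1, K.one_mem, Matrix.SpecialLinearGroup.coe_one⟩

/-- conjugation by an element of `H` -/
theorem KEY_conj [Field F] [CharZero F] {H : Subgroup (SL n ℚ)} {K : Subgroup (SL n F)}
    (hN : Nrm H K) {h : SL n ℚ} (hh : h ∈ H) {z : F} {v φ : Fin n → ℚ}
    (hk : InK K (1 + z • rk (cv F v) (cv F φ))) :
    InK K (1 + z • rk (cv F ((h : Mat n ℚ) *ᵥ v)) (cv F (φ ᵥ* ((h⁻¹ : SL n ℚ) : Mat n ℚ)))) := by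
  obtain ⟨k, hk, hk1⟩ := hk
  refine ⟨_, hN h hh k hk, ?_⟩
  have e1 : (h : Mat n ℚ) * ((h⁻¹ : SL n ℚ) : Mat n ℚ) = 1 := by
    rw [← Matrix.SpecialLinearGroup.coe_mul, mul_inv_cancel, Matrix.SpecialLinearGroup.coe_one]
  rw [← map_inv, Matrix.SpecialLinearGroup.coe_mul, Matrix.SpecialLinearGroup.coe_mul, hk1, cs_coe,
    cs_coe, mul_add, mul_one, add_mul, ← map_mul, e1, map_one, Matrix.mul_smul, Matrix.smul_mul]
  unfold rk
  rw [mul_vecMulVec, vecMulVec_mul, KEY_cv_mulVec, KEY_cv_vecMul]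

end

/-- the two families of elements of `K` -/
theorem KEY_lim (h4 : LM_stmt) {n : ℕ} {F : Type} [NormedField F] [CharZero F]
    {H : Subgroup (SL n ℚ)} {K : Subgroup (SL n F)} (hn : 2 ≤ n)
    (hK : IsClosed (K : Set (SL n F))) (hN : Nrm H K) {a : ℚ} {c θ : Fin n → ℚ} (ha : a ≠ 0)
    (ha1 : ‖(a : F)‖ < 1) (hD : Dil H a c θ) {v φ : Fin n → ℚ} {ρ : ℝ} (hρ : 0 < ρ)
    (hv : ∀ z : F, ‖z‖ < ρ → InK K (1 + z • rk (cv F v) (cv F φ)))
    {h : SL n ℚ} (hh : h ∈ H) (z : F) :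
    InK K (1 + (z * ((φ ᵥ* ((h⁻¹ : SL n ℚ) : Mat n ℚ)) ⬝ᵥ c : ℚ)) •
      rk (cv F ((h : Mat n ℚ) *ᵥ v) - (cv F θ ⬝ᵥ cv F ((h : Mat n ℚ) *ᵥ v)) • cv F c) (cv F θ)) ∧
    InK K (1 + (z * ((θ ⬝ᵥ ((h : Mat n ℚ) *ᵥ v) : ℚ) : F)) •
      rk (cv F c) (cv F (φ ᵥ* ((h⁻¹ : SL n ℚ) : Mat n ℚ)) -
        (cv F (φ ᵥ* ((h⁻¹ : SL n ℚ) : Mat n ℚ)) ⬝ᵥ cv F c) • cv F θ)) := by
  classical
  set V : Fin n → F := cv F ((h : Mat n ℚ) *ᵥ v) with hV
  set Φ : Fin n → F := cv F (φ ᵥ* ((h⁻¹ : SL n ℚ) : Mat n ℚ)) with hΦ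
  set C : Fin n → F := cv F c with hC
  set Θ : Fin n → F := cv F θ with hΘ
  have e1 : ((((φ ᵥ* ((h⁻¹ : SL n ℚ) : Mat n ℚ)) ⬝ᵥ c : ℚ)) : F) = Φ ⬝ᵥ C :=
    (KEY_cv_dot _ _).symm
  have e2 : (((θ ⬝ᵥ ((h : Mat n ℚ) *ᵥ v) : ℚ)) : F) = Θ ⬝ᵥ V := (KEY_cv_dot _ _).symm
  rw [e1, e2]
  set Y : Mat n F := z • rk V Φ with hY
  have hsmall : ∀ y : F, ‖y‖ < ρ → InK K (1 + y • rk V Φ) := fun y hy =>
    KEY_conj hN hh (hv y hy)
  have hex : ∀ i : ℕ, ∃ k ∈ K, ‖((a : F) ^ (n * i)) * z‖ < ρ →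
      (k : Mat n F) = 1 + ((a : F) ^ (n * i)) • Y := by
    intro i
    by_cases hi : ‖((a : F) ^ (n * i)) * z‖ < ρ
    · obtain ⟨k, hk, hk1⟩ := hsmall _ hi
      refine ⟨k, hk, fun _ => ?_⟩
      rw [hk1, hY, smul_smul]
    · exact ⟨1, K.one_mem, fun h => absurd h hi⟩
  choose k hkK hk1 using hex
  have htend : Tendsto (fun i : ℕ => ‖((a : F) ^ (n * i)) * z‖) atTop (𝓝 0) := by
    have h1 : Tendsto (fun i : ℕ => ‖(a : F)‖ ^ (n * i)) atTop (𝓝 0) := by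
      have h2 := tendsto_pow_atTop_nhds_zero_of_lt_one (norm_nonneg (a : F)) ha1
      refine h2.comp ?_
      exact tendsto_id.const_mul_atTop' (by omega : 0 < n)
    have h3 := h1.mul_const ‖z‖
    rw [zero_mul] at h3
    refine h3.congr fun i => ?_
    rw [norm_mul, norm_pow]
  have hev : ∀ᶠ i in atTop, (k i : Mat n F) = 1 + ((a : F) ^ (n * i)) • Y := by
    filter_upwards [htend.eventually_lt_const hρ] with i hi
    exact hk1 i hi
  obtain ⟨l1, l2⟩ := h4 n F H K hn hK hN a c θ ha ha1 hD Y k (fun _ => Y) hkK hev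
    tendsto_const_nhds
  have hYC : Y *ᵥ C = (z * (Φ ⬝ᵥ C)) • V := by
    rw [hY, smul_mulVec, KEY_rk_mulVec, smul_smul]
  have hΘY : Θ ᵥ* Y = (z * (Θ ⬝ᵥ V)) • Φ := by
    rw [hY, vecMul_smul, KEY_vecMul_rk, smul_smul]
  rw [← hC, ← hΘ, hYC] at l1
  rw [← hC, ← hΘ, hΘY] at l2
  constructor
  · rw [← KEY_rk_smul_left, smul_sub, smul_smul]
    rw [dotProduct_smul, smul_eq_mul] at l1
    exact l1
  · rw [← KEY_rk_smul_right, smul_sub, smul_smul]
    rw [smul_dotProduct, smul_eq_mul] at l2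
    exact l2

theorem KEY (h1 : TG_stmt) (h2 : EE_stmt) (h3 : DD_stmt) (h4 : LM_stmt) (h5 : SPN_stmt) :
    KEY_stmt := by
  intro n F _ _ H K hn hH hK hN ha v φ hv0 hφ0 hφv hρ
  obtain ⟨a, ha0, ha1⟩ := ha
  obtain ⟨ρ, hρ, hsm⟩ := hρ
  obtain ⟨c, θ, hD⟩ := h3 n hn H hH a ha0
  obtain ⟨e, heH, hE⟩ := h2 n hn H hH
  have hθc : θ ⬝ᵥ c = 1 := hD.1
  have hc0 : c ≠ 0 := by
    rintro rfl
    rw [dotProduct_zero] at hθc
    exact zero_ne_one hθc
  have hθ0 : θ ≠ 0 := by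
    rintro rfl
    rw [zero_dotProduct] at hθc
    exact zero_ne_one hθc
  set C : Fin n → F := cv F c with hC
  set Θ : Fin n → F := cv F θ with hΘ
  have hΘC : Θ ⬝ᵥ C = 1 := by
    rw [hΘ, hC, KEY_cv_dot, hθc, Rat.cast_one]
  obtain ⟨J, hJ⟩ := hE φ c hφ0 hc0
  obtain ⟨J', hJ'⟩ := hE θ v hθ0 hv0
  have hspan1 := (h5 n e hE F v φ hv0 hφ0 J).1
  have hspan2 := (h5 n e hE F v φ hv0 hφ0 J').2
  refine h1 n F K hn C Θ hΘC ?_ ?_
  · intro w hw
    have hall : ∀ x : Fin n → F, ∀ z : F,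
        InK K (1 + rk (z • x - (Θ ⬝ᵥ (z • x)) • C) Θ) := by
      intro x
      have hx : x ∈ Submodule.span F (Set.range fun j : ℕ =>
          cv F ((((e ^ (J + j))⁻¹ : SL n ℚ) : Mat n ℚ) *ᵥ v)) := by
        rw [hspan1]; exact Submodule.mem_top
      refine Submodule.span_induction (p := fun x _ => ∀ z : F,
        InK K (1 + rk (z • x - (Θ ⬝ᵥ (z • x)) • C) Θ)) ?_ ?_ ?_ ?_ hx
      · rintro x ⟨j, rfl⟩ z
        have hmem : (e ^ (J + j))⁻¹ ∈ H := H.inv_mem (H.pow_mem heH _)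
        have hne : (((φ ᵥ* ((((e ^ (J + j))⁻¹)⁻¹ : SL n ℚ) : Mat n ℚ)) ⬝ᵥ c : ℚ) : F) ≠ 0 := by
          rw [inv_inv, ← dotProduct_mulVec]
          exact Rat.cast_ne_zero.2 (hJ (J + j) (by omega))
        have h6 := (KEY_lim h4 hn hK hN ha0 ha1 hD hρ hsm hmem
          (z * (((φ ᵥ* ((((e ^ (J + j))⁻¹)⁻¹ : SL n ℚ) : Mat n ℚ)) ⬝ᵥ c : ℚ) : F)⁻¹)).1
        rw [mul_assoc, inv_mul_cancel₀ hne, mul_one, ← KEY_rk_smul_left, smul_sub, smul_smul] at h6
        rw [dotProduct_smul, smul_eq_mul]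
        exact h6
      · intro z
        have : z • (0 : Fin n → F) - (Θ ⬝ᵥ (z • (0 : Fin n → F))) • C = 0 := by
          rw [smul_zero, dotProduct_zero, zero_smul, sub_zero]
        rw [this]
        have e0 : rk (0 : Fin n → F) Θ = 0 := by
          have := KEY_rk_smul_left (0 : F) (0 : Fin n → F) Θ
          rwa [zero_smul, zero_smul] at this
        rw [e0, add_zero]
        exact KEY_one
      · intro x y _ _ hx hy z
        have h6 := KEY_mul (hx z) (hy z)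
        have e1 : Θ ⬝ᵥ (z • y - (Θ ⬝ᵥ (z • y)) • C) = 0 := by
          rw [dotProduct_sub, dotProduct_smul (Θ ⬝ᵥ (z • y)), hΘC, smul_eq_mul, mul_one, sub_self]
        have e2 : (1 + rk (z • x - (Θ ⬝ᵥ (z • x)) • C) Θ) * (1 + rk (z • y - (Θ ⬝ᵥ (z • y)) • C) Θ) =
            1 + rk (z • (x + y) - (Θ ⬝ᵥ (z • (x + y))) • C) Θ := by
          rw [mul_add, mul_one, add_mul, one_mul, KEY_rk_mul_rk, e1, zero_smul, add_zero, add_assoc,
            ← KEY_rk_add_left]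
          congr 2
          rw [smul_add, dotProduct_add, add_smul]
          abel
        rwa [e2] at h6
      · intro b x _ hx z
        have := hx (z * b)
        rwa [mul_smul] at this
    have h7 := hall w 1
    rw [one_smul, hw, zero_smul, sub_zero] at h7
    exact h7
  · intro ψ hψ
    have hall : ∀ x : Fin n → F, ∀ z : F,
        InK K (1 + rk C (z • x - ((z • x) ⬝ᵥ C) • Θ)) := by
      intro x
      have hx : x ∈ Submodule.span F (Set.range fun j : ℕ =>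
          cv F (φ ᵥ* (((e ^ (J' + j))⁻¹ : SL n ℚ) : Mat n ℚ))) := by
        rw [hspan2]; exact Submodule.mem_top
      refine Submodule.span_induction (p := fun x _ => ∀ z : F,
        InK K (1 + rk C (z • x - ((z • x) ⬝ᵥ C) • Θ))) ?_ ?_ ?_ ?_ hx
      · rintro x ⟨j, rfl⟩ z
        have hmem : e ^ (J' + j) ∈ H := H.pow_mem heH _
        have hne : (((θ ⬝ᵥ (((e ^ (J' + j) : SL n ℚ) : Mat n ℚ) *ᵥ v) : ℚ)) : F) ≠ 0 :=
          Rat.cast_ne_zero.2 (hJ' (J' + j) (by omega))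
        have h6 := (KEY_lim h4 hn hK hN ha0 ha1 hD hρ hsm hmem
          (z * (((θ ⬝ᵥ (((e ^ (J' + j) : SL n ℚ) : Mat n ℚ) *ᵥ v) : ℚ)) : F)⁻¹)).2
        rw [mul_assoc, inv_mul_cancel₀ hne, mul_one, ← KEY_rk_smul_right, smul_sub, smul_smul] at h6
        rw [smul_dotProduct, smul_eq_mul]
        exact h6
      · intro z
        have : z • (0 : Fin n → F) - ((z • (0 : Fin n → F)) ⬝ᵥ C) • Θ = 0 := by
          rw [smul_zero, zero_dotProduct, zero_smul, sub_zero]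
        rw [this]
        have e0 : rk C (0 : Fin n → F) = 0 := by
          have := KEY_rk_smul_right (0 : F) C (0 : Fin n → F)
          rwa [zero_smul, zero_smul] at this
        rw [e0, add_zero]
        exact KEY_one
      · intro x y _ _ hx hy z
        have h6 := KEY_mul (hx z) (hy z)
        have e1 : (z • x - ((z • x) ⬝ᵥ C) • Θ) ⬝ᵥ C = 0 := by
          rw [sub_dotProduct, smul_dotProduct ((z • x) ⬝ᵥ C), hΘC, smul_eq_mul, mul_one, sub_self]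
        have e2 : (1 + rk C (z • x - ((z • x) ⬝ᵥ C) • Θ)) * (1 + rk C (z • y - ((z • y) ⬝ᵥ C) • Θ)) =
            1 + rk C (z • (x + y) - ((z • (x + y)) ⬝ᵥ C) • Θ) := by
          rw [mul_add, mul_one, add_mul, one_mul, KEY_rk_mul_rk, e1, zero_smul, add_zero, add_assoc,
            ← KEY_rk_add_right]
          congr 2
          rw [smul_add, add_dotProduct, add_smul]
          abel
        rwa [e2] at h6
      · intro b x _ hx z
        have := hx (z * b)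
        rwa [mul_smul] at this
    have h7 := hall ψ 1
    rw [one_smul, hψ, zero_smul, sub_zero] at h7
    exact h7

end Pool.Agent.ISL
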